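import Pool.Agent.Q145.HC.Stm
import Pool.Agent.H307R2.LU

/-!
# Project HC, job GEX: analytic continuation of `∑ χ(n) λ(n) n^{-s}` with a bound
-/

set_option autoImplicit false

namespace Pool.Agent.Q208.HC

open Finset Filter Complex MeasureTheory
open Pool.Agent.W66 Pool.Agent.W66L Pool.Agent.Q145.HC
open Pool.Agent.H307R2 (TM TM_norm_le Ez Ez_norm_le zeta_eq)

namespace GEXA

/-- the sum of `n^{-σ}` -/
lemma ZS {σ : ℝ} (hσ : 1 < σ) : (Summable fun n : ℕ => 1 / (n : ℝ) ^ σ) ∧
    ∑' n : ℕ, 1 / (n : ℝ) ^ σ ≤ 2 + 1 / (σ - 1) := by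
  have hsum : Summable fun n : ℕ => 1 / (n : ℝ) ^ σ := Real.summable_one_div_nat_rpow.2 hσ
  refine ⟨hsum, ?_⟩
  have h0 : (0 : ℝ) < σ := by linarith
  have hre : 1 < ((σ : ℝ) : ℂ).re := by simpa using hσ
  have h1 : riemannZeta (σ : ℂ) = ((∑' n : ℕ, 1 / (n : ℝ) ^ σ : ℝ) : ℂ) := by
    rw [zeta_eq_tsum_one_div_nat_cpow hre, Complex.ofReal_tsum]
    refine tsum_congr fun n => ?_
    rw [Complex.ofReal_div, Complex.ofReal_one, Complex.ofReal_cpow (Nat.cast_nonneg n),
      Complex.ofReal_natCast]
  have h2 : ∑' n : ℕ, 1 / (n : ℝ) ^ σ = ‖riemannZeta (σ : ℂ)‖ := by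
    rw [h1, Complex.norm_real, Real.norm_eq_abs, abs_of_nonneg (tsum_nonneg fun n => by positivity)]
  rw [h2]
  have hne : (σ : ℂ) ≠ 1 := by
    intro h
    have : σ = 1 := by exact_mod_cast h
    linarith
  have h3 := zeta_eq (le_refl 1) (s := (σ : ℂ)) (by simpa using h0) hne
  rw [h3]
  have h4 := TM_norm_le (le_refl 1) Ez_norm_le (s := (σ : ℂ)) (by simpa using h0)
  rw [Nat.cast_one, Real.one_rpow, Complex.ofReal_re, one_mul] at h4
  have h5 : ‖∑ n ∈ Finset.Icc (1 : ℕ) 1, (n : ℂ) ^ (-(σ : ℂ))‖ ≤ 1 := by simp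
  have h6 : ‖((1 : ℕ) : ℂ) ^ (1 - (σ : ℂ)) / ((σ : ℂ) - 1)‖ ≤ 1 / (σ - 1) := by
    rw [Nat.cast_one, Complex.one_cpow, norm_div, norm_one]
    have : ‖(σ : ℂ) - 1‖ = σ - 1 := by
      rw [show (σ : ℂ) - 1 = ((σ - 1 : ℝ) : ℂ) by push_cast; ring, Complex.norm_real,
        Real.norm_eq_abs, abs_of_pos (by linarith)]
    rw [this]
  have h7 : ‖(σ : ℂ) * TM 1 Ez (σ : ℂ)‖ ≤ 1 := by
    rw [norm_mul, Complex.norm_real, Real.norm_eq_abs, abs_of_pos h0]
    calc σ * ‖TM 1 Ez (σ : ℂ)‖ ≤ σ * (1 / σ) := mul_le_mul_of_nonneg_left h4 h0.le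
      _ = 1 := by field_simp
  refine (norm_add_le _ _).trans ?_
  have h8 := norm_add_le (∑ n ∈ Finset.Icc (1 : ℕ) 1, (n : ℂ) ^ (-(σ : ℂ)))
    (((1 : ℕ) : ℂ) ^ (1 - (σ : ℂ)) / ((σ : ℂ) - 1))
  linarith

open ArithmeticFunction.Moebius in
/-- lower bound of `L(s, χ)` right of the line `1` -/
lemma Linv {Q : ℕ} [NeZero Q] (χ : DirichletCharacter ℂ Q) {z : ℂ} (hz : 1 < z.re) :
    1 ≤ (2 + 1 / (z.re - 1)) * ‖χ.LFunction z‖ := by
  obtain ⟨hsum, hle⟩ := ZS hz
  have h1 := DirichletCharacter.LSeries.mul_mu_eq_one χ hz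
  rw [← DirichletCharacter.LFunction_eq_LSeries χ hz] at h1
  have h2 : ‖LSeries ((fun n : ℕ => (χ n : ℂ)) * (fun n : ℕ => (μ n : ℂ))) z‖ ≤
      ∑' n : ℕ, 1 / (n : ℝ) ^ z.re := by
    unfold LSeries
    refine tsum_of_norm_bounded hsum.hasSum fun n => ?_
    rcases eq_or_ne n 0 with rfl | hn
    · simp only [LSeries.term_zero, norm_zero]
      positivity
    · rw [LSeries.term_of_ne_zero hn, norm_div, norm_natCast_cpow_of_pos (Nat.pos_of_ne_zero hn)]
      apply div_le_div_of_nonneg_right _ (by positivity)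
      rw [Pi.mul_apply, norm_mul]
      have h3 := ArithmeticFunction.abs_moebius_le_one (n := n)
      have h4 : ‖((ArithmeticFunction.moebius n : ℤ) : ℂ)‖ ≤ 1 := by
        rw [Complex.norm_intCast]
        exact_mod_cast h3
      exact mul_le_one₀ (χ.norm_le_one _) (norm_nonneg _) h4
  have h3 : ‖χ.LFunction z‖ *
      ‖LSeries ((fun n : ℕ => (χ n : ℂ)) * (fun n : ℕ => (μ n : ℂ))) z‖ = 1 := by
    rw [← norm_mul, h1, norm_one]
  calc (1 : ℝ) = _ := h3.symm
    _ ≤ ‖χ.LFunction z‖ * (2 + 1 / (z.re - 1)) :=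
        mul_le_mul_of_nonneg_left (h2.trans hle) (norm_nonneg _)
    _ = _ := mul_comm _ _

lemma Linv' {Q : ℕ} [NeZero Q] (χ : DirichletCharacter ℂ Q) {ω : ℝ} (hω : 0 < ω) (hω4 : ω ≤ 1 / 4)
    {z : ℂ} (hz : 1 + ω / 4 ≤ z.re) : ω / 5 ≤ ‖χ.LFunction z‖ := by
  have h1 := Linv χ (z := z) (by linarith)
  have h2 : 1 / (z.re - 1) ≤ 4 / ω := by
    rw [div_le_div_iff₀ (by linarith) hω]
    linarith
  have h3 : 2 ≤ 1 / ω := by
    rw [le_div_iff₀ hω]
    linarith
  have h4 : 2 + 1 / (z.re - 1) ≤ 5 / ω := by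
    have : 5 / ω = 4 / ω + 1 / ω := by ring
    linarith
  have h5 : 1 ≤ 5 / ω * ‖χ.LFunction z‖ :=
    h1.trans (mul_le_mul_of_nonneg_right h4 (norm_nonneg _))
  have h6 : 5 / ω * ‖χ.LFunction z‖ = ‖χ.LFunction z‖ * 5 / ω := by ring
  rw [h6, le_div_iff₀ hω] at h5
  linarith

lemma ell_close {s t : ℝ} (h : |s - t| ≤ 1 / 4) : ell s ≤ ell t + 1 / 12 := by
  unfold ell
  have h1 : |s| ≤ |t| + 1 / 4 := by
    have := abs_sub_abs_le_abs_sub s t
    linarith
  have ht := abs_nonneg t
  have h2 : |s| + 3 ≤ (|t| + 3) * (13 / 12) := by linarith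
  have h3 : Real.log (|s| + 3) ≤ Real.log ((|t| + 3) * (13 / 12)) :=
    Real.log_le_log (by positivity) h2
  rw [Real.log_mul (by positivity) (by norm_num)] at h3
  have h4 := Real.log_le_sub_one_of_pos (x := 13 / 12) (by norm_num)
  linarith

/-- the bound in the ball -/
lemma grow {C ω l l' : ℝ} (hC : 1 ≤ C) (hω : 0 < ω) (hω4 : ω ≤ 1 / 4) (hl : 1 ≤ l) (_ : 1 ≤ l')
    (h : l' ≤ l + 1 / 12) : C * l' * Real.exp (ω * l') ≤ 4 * C * (l * Real.exp (ω * l)) := by
  have h1 : Real.exp (ω * l') ≤ 2 * Real.exp (ω * l) := by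
    have h2 : ω * l' ≤ Real.log 2 + ω * l := by
      have h3 := Real.log_two_gt_d9
      have h4 : ω * l' ≤ ω * (l + 1 / 12) := mul_le_mul_of_nonneg_left h hω.le
      nlinarith
    calc Real.exp (ω * l') ≤ Real.exp (Real.log 2 + ω * l) := Real.exp_le_exp.2 h2
      _ = 2 * Real.exp (ω * l) := by rw [Real.exp_add, Real.exp_log (by norm_num)]
  have h2 : l' ≤ 2 * l := by linarith
  calc C * l' * Real.exp (ω * l') ≤ C * (2 * l) * (2 * Real.exp (ω * l)) := by gcongr
    _ = _ := by ring

end GEXA

open GEXA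

theorem t_GEX : Pool.Agent.Q145.HC.S_GEX := by
  intro hLID hBCL hLUP
  obtain ⟨C, hC, hU⟩ := hLUP
  refine ⟨648000 * C ^ 2, by nlinarith, fun Q _ χ hχ ω T hω hω4 hZ => ?_⟩
  obtain ⟨hL1, hL2⟩ := hLID Q χ
  -- the quantity `P`
  have hP : ∀ z : ℂ, 1 / ω ≤ lq Q z.im * Real.exp (ω * lq Q z.im) / ω ∧
      1 ≤ lq Q z.im * Real.exp (ω * lq Q z.im) / ω := by
    intro z
    have hl := one_le_lq Q z.im
    have h1 : 1 ≤ Real.exp (ω * lq Q z.im) := Real.one_le_exp (by positivity)
    have h2 : 1 ≤ lq Q z.im * Real.exp (ω * lq Q z.im) := one_le_mul_of_one_le_of_one_le hl h1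
    have h3 : 1 / ω ≤ lq Q z.im * Real.exp (ω * lq Q z.im) / ω :=
      div_le_div_of_nonneg_right h2 hω.le
    refine ⟨h3, le_trans ?_ h3⟩
    rw [le_div_iff₀ hω]
    linarith
  by_cases h1 : χ = 1
  · -- the zeta function
    have hQ : Q = 1 := by
      rcases hχ with h | h
      · exact absurd h1 h
      · exact h
    subst hQ
    have hLz : ∀ s, χ.LFunction s = riemannZeta s := by
      intro s
      rw [DirichletCharacter.LFunction_modOne_eq]
    have hell : ∀ t, lq 1 t = ell t := by
      intro t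
      unfold lq
      simp
    have hZ1 : ∀ s : ℂ, 1 - ω < s.re → |s.im| ≤ T → Z1 s ≠ 0 := by
      intro s hs1 hs2
      by_cases h : s = 1
      · rw [h, Z1_one]
        exact one_ne_zero
      · rw [Z1_eq h]
        have h2 := hZ s hs1 hs2 h
        rw [hLz] at h2
        exact mul_ne_zero (sub_ne_zero.2 h) h2
    refine ⟨fun s => LSeries (fun n : ℕ => (χ n) ^ 2) (2 * s) * ((s - 1) / Z1 s), ?_, ?_⟩
    · intro s hs
      have hs1 : s ≠ 1 := by
        rintro rfl
        simp at hs
      have hz0 : riemannZeta s ≠ 0 := riemannZeta_ne_zero_of_one_le_re hs.le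
      have h3 := hL1 s hs
      rw [hLz] at h3
      show LSeries (xl χ) s = LSeries (fun n : ℕ => (χ n) ^ 2) (2 * s) * ((s - 1) / Z1 s)
      rw [← h3, Z1_eq hs1]
      have : s - 1 ≠ 0 := sub_ne_zero.2 hs1
      field_simp
    · intro z hz1 hz2 hz3
      have hzim : |z.im| ≤ T := by linarith
      have hzne := hZ1 z (by linarith) hzim
      obtain ⟨hN1, hN2⟩ := hL2 z (by linarith)
      refine ⟨hN1.mul ((differentiableAt_id.sub_const 1).div (Z1_diff z) hzne), ?_⟩
      obtain ⟨hP1, hP2⟩ := hP z
      rw [norm_mul]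
      have hgoal : ‖(z - 1) / Z1 z‖ ≤ 216000 * C ^ 2 *
          (lq 1 z.im * Real.exp (ω * lq 1 z.im) / ω) ^ 8 := by
        rcases le_or_gt (1 + ω / 4) z.re with hre | hre
        · have hz : z ≠ 1 := by
            rintro rfl
            simp at hre
            linarith
          have h3 := Linv' χ hω hω4 hre
          rw [hLz] at h3
          have h4 : 0 < ‖riemannZeta z‖ := by linarith [div_pos hω (by norm_num : (0 : ℝ) < 5)]
          have h5 : ‖(z - 1) / Z1 z‖ = 1 / ‖riemannZeta z‖ := by
            rw [Z1_eq hz, norm_div, norm_mul]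
            have : 0 < ‖z - 1‖ := norm_pos_iff.2 (sub_ne_zero.2 hz)
            field_simp
          rw [h5]
          calc 1 / ‖riemannZeta z‖ ≤ 1 / (ω / 5) :=
                one_div_le_one_div_of_le (by positivity) h3
            _ = 5 * (1 / ω) := by field_simp
            _ ≤ 5 * (lq 1 z.im * Real.exp (ω * lq 1 z.im) / ω) ^ 1 := by
                rw [pow_one]
                linarith
            _ ≤ 5 * (lq 1 z.im * Real.exp (ω * lq 1 z.im) / ω) ^ 8 :=
                mul_le_mul_of_nonneg_left (pow_le_pow_right₀ hP2 (by norm_num)) (by norm_num)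
            _ ≤ _ := mul_le_mul_of_nonneg_right (by nlinarith) (by positivity)
        · obtain ⟨c, hc⟩ : ∃ c : ℂ, c = ⟨1 + ω / 4, z.im⟩ := ⟨_, rfl⟩
          have hcre : c.re = 1 + ω / 4 := by rw [hc]
          have hcim : c.im = z.im := by rw [hc]
          have hcne : c ≠ 1 := by
            intro h
            rw [h, Complex.one_re] at hcre
            linarith
          obtain ⟨u, hu⟩ : ∃ u, u = ‖c - 1‖ := ⟨_, rfl⟩
          have hu1 : ω / 4 ≤ u := by
            have h3 := Complex.abs_re_le_norm (c - 1)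
            rw [Complex.sub_re, Complex.one_re, hcre, ← hu, abs_of_nonneg (by linarith)] at h3
            linarith
          have hu0 : 0 < u := by linarith [div_pos hω (by norm_num : (0 : ℝ) < 4)]
          have hcz : ‖z - c‖ ≤ ω / 2 := by
            have h3 : z - c = ((z.re - (1 + ω / 4) : ℝ) : ℂ) := by
              apply Complex.ext
              · simp [hcre]
              · simp [hcim]
            rw [h3, Complex.norm_real, Real.norm_eq_abs, abs_le]
            constructor <;> linarith
          have hball : ∀ s ∈ Metric.ball c (2 * (ω / 2)), 1 - ω < s.re ∧ s.re ≤ 3 ∧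
              |s.im| ≤ T ∧ |s.im - z.im| ≤ 1 / 4 ∧ ‖s - 1‖ ≤ u + ω := by
            intro s hs
            rw [Metric.mem_ball, dist_eq_norm] at hs
            have h3 := (Complex.abs_re_le_norm (s - c))
            have h4 := (Complex.abs_im_le_norm (s - c))
            rw [Complex.sub_re, hcre, abs_le] at h3
            rw [Complex.sub_im, hcim] at h4
            have h5 : |s.im| ≤ |z.im| + |s.im - z.im| := by
              have := abs_sub_abs_le_abs_sub s.im z.im
              linarith
            have h6 : ‖s - 1‖ ≤ ‖s - c‖ + ‖c - 1‖ := by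
              have := norm_add_le (s - c) (c - 1)
              rwa [sub_add_sub_cancel] at this
            rw [← hu] at h6
            refine ⟨by linarith [h3.1], by linarith [h3.2], by linarith, by linarith, by linarith⟩
          have hm : u * (ω / 5) ≤ ‖Z1 c‖ := by
            rw [Z1_eq hcne, norm_mul, ← hu, ← hLz]
            exact mul_le_mul_of_nonneg_left (Linv' χ hω hω4 hcre.ge) hu0.le
          obtain ⟨l, hl⟩ : ∃ l, l = ell z.im := ⟨_, rfl⟩
          have hl1 : 1 ≤ l := by
            rw [hl]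
            exact one_le_ell _
          obtain ⟨M, hM⟩ : ∃ M, M = (1 + 5 * u) * (4 * C * (l * Real.exp (ω * l))) := ⟨_, rfl⟩
          have hE1 : 1 ≤ Real.exp (ω * l) := Real.one_le_exp (by positivity)
          have hX1 : 1 ≤ 4 * C * (l * Real.exp (ω * l)) := by
            have h3 : 1 ≤ l * Real.exp (ω * l) := one_le_mul_of_one_le_of_one_le hl1 hE1
            nlinarith
          have hM1 : 1 ≤ M := by
            rw [hM]
            exact one_le_mul_of_one_le_of_one_le (by linarith) hX1
          have hbound : ∀ s ∈ Metric.ball c (2 * (ω / 2)), ‖Z1 s‖ ≤ M := by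
            intro s hs
            obtain ⟨s1, s2, s3, s4, s5⟩ := hball s hs
            by_cases h : s = 1
            · rw [h, Z1_one, norm_one]
              exact hM1
            · rw [Z1_eq h]
              have h3 := (hU ω hω hω4).2 s s1.le s2
              have h4 := grow hC hω hω4 hl1 (one_le_ell s.im) (by rw [hl]; exact ell_close s4)
              calc ‖(s - 1) * riemannZeta s‖
                  ≤ C * (1 + ‖s - 1‖) * ell s.im * Real.exp (ω * ell s.im) := h3
                _ = (1 + ‖s - 1‖) * (C * ell s.im * Real.exp (ω * ell s.im)) := by ring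
                _ ≤ (1 + 5 * u) * (4 * C * (l * Real.exp (ω * l))) :=
                    mul_le_mul (by linarith) h4
                      (by
                        have := one_le_ell s.im
                        positivity) (by linarith)
                _ = M := hM.symm
          have h3 := hBCL Z1 c (ω / 2) (u * (ω / 5)) M (by positivity) (by positivity) hm
            Z1_diff.differentiableOn
            (fun s hs => hZ1 s (hball s hs).1 (hball s hs).2.2.1) hbound z
            (by rw [Metric.mem_closedBall, dist_eq_norm]; exact hcz)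
          have hM0 : 0 < M := by linarith
          have hz1' : ‖z - 1‖ ≤ 3 * u := by
            have := norm_add_le (z - c) (c - 1)
            rw [sub_add_sub_cancel, ← hu] at this
            linarith
          have hpos : 0 < u * (ω / 5) * (u * (ω / 5) / M) ^ 2 := by positivity
          rw [norm_div]
          have h4 : ‖z - 1‖ / ‖Z1 z‖ ≤ 3 * u / (u * (ω / 5) * (u * (ω / 5) / M) ^ 2) :=
            div_le_div₀ (by positivity) hz1' hpos h3
          have h5 : 3 * u / (u * (ω / 5) * (u * (ω / 5) / M) ^ 2) =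
              6000 * C ^ 2 * ((1 + 5 * u) / u) ^ 2 * ((l * Real.exp (ω * l)) ^ 2 / ω ^ 3) := by
            rw [hM]
            field_simp
            ring
          have h6 : (1 + 5 * u) / u ≤ 6 / ω := by
            rw [div_le_div_iff₀ hu0 hω]
            nlinarith
          have h7 : ((1 + 5 * u) / u) ^ 2 ≤ (6 / ω) ^ 2 := by gcongr
          have hlqeq : lq 1 z.im = l := by rw [hell, hl]
          rw [hlqeq]
          rw [hlqeq] at hP2
          calc ‖z - 1‖ / ‖Z1 z‖ ≤ _ := h4
            _ = _ := h5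
            _ ≤ 6000 * C ^ 2 * (6 / ω) ^ 2 * ((l * Real.exp (ω * l)) ^ 2 / ω ^ 3) := by gcongr
            _ = 216000 * C ^ 2 * (1 ^ 3 * (l * Real.exp (ω * l)) ^ 2 / ω ^ 5) := by
                field_simp
                ring
            _ ≤ 216000 * C ^ 2 * ((l * Real.exp (ω * l)) ^ 3 * (l * Real.exp (ω * l)) ^ 2 /
                  ω ^ 5) := by
                have h8 : 1 ≤ l * Real.exp (ω * l) := one_le_mul_of_one_le_of_one_le hl1 hE1
                gcongr
            _ = 216000 * C ^ 2 * (l * Real.exp (ω * l) / ω) ^ 5 := by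
                rw [div_pow]
                ring
            _ ≤ 216000 * C ^ 2 * (l * Real.exp (ω * l) / ω) ^ 8 :=
                mul_le_mul_of_nonneg_left (pow_le_pow_right₀ hP2 (by norm_num)) (by positivity)
      calc ‖LSeries (fun n : ℕ => (χ n) ^ 2) (2 * z)‖ * ‖(z - 1) / Z1 z‖
          ≤ 3 * (216000 * C ^ 2 * (lq 1 z.im * Real.exp (ω * lq 1 z.im) / ω) ^ 8) :=
            mul_le_mul hN2 hgoal (norm_nonneg _) (by norm_num)
        _ = _ := by ring
  · -- nontrivial characters
    have hdiff : Differentiable ℂ χ.LFunction := DirichletCharacter.differentiable_LFunction h1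
    have hZ1 : ∀ s : ℂ, 1 - ω < s.re → |s.im| ≤ T → χ.LFunction s ≠ 0 := by
      intro s hs1 hs2
      by_cases h : s = 1
      · rw [h]
        exact DirichletCharacter.LFunction_ne_zero_of_one_le_re χ (Or.inl h1) (by simp)
      · exact hZ s hs1 hs2 h
    refine ⟨fun s => LSeries (fun n : ℕ => (χ n) ^ 2) (2 * s) * (1 / χ.LFunction s), ?_, ?_⟩
    · intro s hs
      have hz0 : χ.LFunction s ≠ 0 :=
        DirichletCharacter.LFunction_ne_zero_of_one_le_re χ (Or.inl h1) hs.le
      have h3 := hL1 s hs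
      show LSeries (xl χ) s = LSeries (fun n : ℕ => (χ n) ^ 2) (2 * s) * (1 / χ.LFunction s)
      rw [← h3]
      field_simp
    · intro z hz1 hz2 hz3
      have hzim : |z.im| ≤ T := by linarith
      have hzne := hZ1 z (by linarith) hzim
      obtain ⟨hN1, hN2⟩ := hL2 z (by linarith)
      refine ⟨hN1.mul ((differentiableAt_const 1).div (hdiff z) hzne), ?_⟩
      obtain ⟨hP1, hP2⟩ := hP z
      rw [norm_mul]
      have hgoal : ‖1 / χ.LFunction z‖ ≤ 216000 * C ^ 2 *
          (lq Q z.im * Real.exp (ω * lq Q z.im) / ω) ^ 8 := by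
        rw [norm_div, norm_one]
        rcases le_or_gt (1 + ω / 4) z.re with hre | hre
        · have h3 := Linv' χ hω hω4 hre
          calc 1 / ‖χ.LFunction z‖ ≤ 1 / (ω / 5) :=
                one_div_le_one_div_of_le (by positivity) h3
            _ = 5 * (1 / ω) := by field_simp
            _ ≤ 5 * (lq Q z.im * Real.exp (ω * lq Q z.im) / ω) ^ 1 := by
                rw [pow_one]
                linarith
            _ ≤ 5 * (lq Q z.im * Real.exp (ω * lq Q z.im) / ω) ^ 8 :=
                mul_le_mul_of_nonneg_left (pow_le_pow_right₀ hP2 (by norm_num)) (by norm_num)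
            _ ≤ _ := mul_le_mul_of_nonneg_right (by nlinarith) (by positivity)
        · obtain ⟨c, hc⟩ : ∃ c : ℂ, c = ⟨1 + ω / 4, z.im⟩ := ⟨_, rfl⟩
          have hcre : c.re = 1 + ω / 4 := by rw [hc]
          have hcim : c.im = z.im := by rw [hc]
          have hcz : ‖z - c‖ ≤ ω / 2 := by
            have h3 : z - c = ((z.re - (1 + ω / 4) : ℝ) : ℂ) := by
              apply Complex.ext
              · simp [hcre]
              · simp [hcim]
            rw [h3, Complex.norm_real, Real.norm_eq_abs, abs_le]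
            constructor <;> linarith
          have hball : ∀ s ∈ Metric.ball c (2 * (ω / 2)), 1 - ω < s.re ∧ s.re ≤ 3 ∧
              |s.im| ≤ T ∧ |s.im - z.im| ≤ 1 / 4 := by
            intro s hs
            rw [Metric.mem_ball, dist_eq_norm] at hs
            have h3 := (Complex.abs_re_le_norm (s - c))
            have h4 := (Complex.abs_im_le_norm (s - c))
            rw [Complex.sub_re, hcre, abs_le] at h3
            rw [Complex.sub_im, hcim] at h4
            have h5 : |s.im| ≤ |z.im| + |s.im - z.im| := by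
              have := abs_sub_abs_le_abs_sub s.im z.im
              linarith
            refine ⟨by linarith [h3.1], by linarith [h3.2], by linarith, by linarith⟩
          have hm : ω / 5 ≤ ‖χ.LFunction c‖ := Linv' χ hω hω4 hcre.ge
          obtain ⟨l, hl⟩ : ∃ l, l = lq Q z.im := ⟨_, rfl⟩
          have hl1 : 1 ≤ l := by
            rw [hl]
            exact one_le_lq _ _
          have hE1 : 1 ≤ Real.exp (ω * l) := Real.one_le_exp (by positivity)
          obtain ⟨M, hM⟩ : ∃ M, M = 4 * C * (l * Real.exp (ω * l)) := ⟨_, rfl⟩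
          have hM0 : 0 < M := by
            rw [hM]
            positivity
          have hbound : ∀ s ∈ Metric.ball c (2 * (ω / 2)), ‖χ.LFunction s‖ ≤ M := by
            intro s hs
            obtain ⟨s1, s2, s3, s4⟩ := hball s hs
            have h3 := (hU ω hω hω4).1 Q χ h1 s s1.le s2
            have h4 : lq Q s.im ≤ l + 1 / 12 := by
              rw [hl]
              unfold lq
              linarith [ell_close s4]
            have h5 := grow hC hω hω4 hl1 (one_le_lq Q s.im) h4
            rw [hM]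
            exact h3.trans h5
          have h3 := hBCL χ.LFunction c (ω / 2) (ω / 5) M (by positivity) (by positivity) hm
            hdiff.differentiableOn
            (fun s hs => hZ1 s (hball s hs).1 (hball s hs).2.2.1) hbound z
            (by rw [Metric.mem_closedBall, dist_eq_norm]; exact hcz)
          have hpos : 0 < ω / 5 * (ω / 5 / M) ^ 2 := by positivity
          rw [← hl]
          rw [← hl] at hP2
          calc 1 / ‖χ.LFunction z‖ ≤ 1 / (ω / 5 * (ω / 5 / M) ^ 2) :=
                one_div_le_one_div_of_le hpos h3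
            _ = 2000 * C ^ 2 * (1 * (l * Real.exp (ω * l)) ^ 2 / ω ^ 3) := by
                rw [hM]
                field_simp
                ring
            _ ≤ 2000 * C ^ 2 * ((l * Real.exp (ω * l)) * (l * Real.exp (ω * l)) ^ 2 / ω ^ 3) := by
                have h8 : 1 ≤ l * Real.exp (ω * l) := one_le_mul_of_one_le_of_one_le hl1 hE1
                gcongr
            _ = 2000 * C ^ 2 * (l * Real.exp (ω * l) / ω) ^ 3 := by
                rw [div_pow]
                ring
            _ ≤ 2000 * C ^ 2 * (l * Real.exp (ω * l) / ω) ^ 8 :=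
                mul_le_mul_of_nonneg_left (pow_le_pow_right₀ hP2 (by norm_num)) (by positivity)
            _ ≤ _ := mul_le_mul_of_nonneg_right (by nlinarith) (by positivity)
      calc ‖LSeries (fun n : ℕ => (χ n) ^ 2) (2 * z)‖ * ‖1 / χ.LFunction z‖
          ≤ 3 * (216000 * C ^ 2 * (lq Q z.im * Real.exp (ω * lq Q z.im) / ω) ^ 8) :=
            mul_le_mul hN2 hgoal (norm_nonneg _) (by norm_num)
        _ = _ := by ring

end Pool.Agent.Q208.HC
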