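import Pool.Agent.Q145.HC.Stm
import Pool.Agent.H307R2.LU

/-!
# Project HC, job LUP: growth of `L(s, χ)` and `ζ(s)` near `Re s = 1`
-/

set_option autoImplicit false

namespace Pool.Agent.Q208.HC

open Finset Filter Complex MeasureTheory
open Pool.Agent.W66 Pool.Agent.W66L
open Pool.Agent.H307R2 (TM TM_norm_le Ech Ech_norm_le LFunction_eq Ez Ez_norm_le zeta_eq)

namespace LUPA

lemma harm (N : ℕ) : ∑ n ∈ Icc 1 N, 1 / (n : ℝ) ≤ 1 + Real.log N := by
  have h1 := harmonic_le_one_add_log N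
  have h2 : ((harmonic N : ℚ) : ℝ) = ∑ n ∈ Icc 1 N, 1 / (n : ℝ) := by
    rw [harmonic_eq_sum_Icc]
    push_cast
    exact sum_congr rfl fun n _ => by rw [one_div]
  rw [← h2]
  exact h1

/-- the numbers of the proof -/
lemma base {x : ℝ} (hx : 3 ≤ x) : ∃ N : ℕ, 1 ≤ N ∧ x ≤ N ∧
    ∀ ω σ : ℝ, 0 < ω → ω ≤ 1 / 4 → 1 - ω ≤ σ →
      ∑ n ∈ Icc 1 N, (n : ℝ) ^ (-σ) ≤ 6 * (Real.log x * Real.exp (ω * Real.log x)) ∧
      (N : ℝ) * ((N : ℝ) ^ (-σ) / σ) ≤ 3 * (Real.log x * Real.exp (ω * Real.log x)) ∧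
      (N : ℝ) ^ (1 - σ) ≤ 2 * (Real.log x * Real.exp (ω * Real.log x)) := by
  have hx0 : 0 < x := by linarith
  have hlog : 1 ≤ Real.log x := by
    rw [Real.le_log_iff_exp_le hx0]
    have := Real.exp_one_lt_d9
    linarith
  have hN1 : x ≤ (⌈x⌉₊ : ℝ) := Nat.le_ceil x
  have hN2 : (⌈x⌉₊ : ℝ) ≤ 2 * x := by
    have := Nat.ceil_lt_add_one hx0.le
    linarith
  have hN0 : 1 ≤ ⌈x⌉₊ := Nat.one_le_iff_ne_zero.2 (by
    intro h
    rw [h, Nat.cast_zero] at hN1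
    linarith)
  refine ⟨⌈x⌉₊, hN0, hN1, fun ω σ hω hω4 hσ => ?_⟩
  obtain ⟨N, hN⟩ : ∃ N, N = ⌈x⌉₊ := ⟨_, rfl⟩
  rw [← hN] at hN0 hN1 hN2 ⊢
  have hNr : (1 : ℝ) ≤ N := by exact_mod_cast hN0
  have hNp : (0 : ℝ) < N := by linarith
  have he : Real.exp (ω * Real.log x) = x ^ ω := by
    rw [Real.rpow_def_of_pos hx0, mul_comm]
  rw [he]
  have hxω : 0 < x ^ ω := by positivity
  have hNω : (N : ℝ) ^ ω ≤ 2 * x ^ ω := by
    calc (N : ℝ) ^ ω ≤ (2 * x) ^ ω := Real.rpow_le_rpow hNp.le hN2 hω.le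
      _ = 2 ^ ω * x ^ ω := Real.mul_rpow (by norm_num) hx0.le
      _ ≤ 2 * x ^ ω := by
        refine mul_le_mul_of_nonneg_right ?_ hxω.le
        calc (2 : ℝ) ^ ω ≤ 2 ^ (1 : ℝ) :=
              Real.rpow_le_rpow_of_exponent_le (by norm_num) (by linarith)
          _ = 2 := Real.rpow_one _
  have hlogN : 1 + Real.log N ≤ 3 * Real.log x := by
    have h1 : Real.log N ≤ Real.log (2 * x) := Real.log_le_log hNp hN2
    rw [Real.log_mul (by norm_num) hx0.ne'] at h1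
    have h2 := Real.log_two_lt_d9
    linarith
  have hNs : (N : ℝ) ^ (1 - σ) ≤ 2 * x ^ ω :=
    (Real.rpow_le_rpow_of_exponent_le hNr (by linarith)).trans hNω
  have hxl : x ^ ω ≤ Real.log x * x ^ ω := le_mul_of_one_le_left hxω.le hlog
  have hσ0 : 0 < σ := by linarith
  refine ⟨?_, ?_, ?_⟩
  · calc ∑ n ∈ Icc 1 N, (n : ℝ) ^ (-σ) ≤ ∑ n ∈ Icc 1 N, (N : ℝ) ^ ω * (1 / (n : ℝ)) := by
          refine sum_le_sum fun n hn => ?_
          rw [mem_Icc] at hn
          have hn1 : (1 : ℝ) ≤ n := by exact_mod_cast hn.1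
          have hn0 : (0 : ℝ) < n := by linarith
          have hnN : (n : ℝ) ≤ N := by exact_mod_cast hn.2
          calc (n : ℝ) ^ (-σ) ≤ (n : ℝ) ^ (ω - 1) :=
                Real.rpow_le_rpow_of_exponent_le hn1 (by linarith)
            _ = (n : ℝ) ^ ω * (1 / (n : ℝ)) := by
                rw [Real.rpow_sub_one hn0.ne']
                ring
            _ ≤ (N : ℝ) ^ ω * (1 / (n : ℝ)) := by
                refine mul_le_mul_of_nonneg_right ?_ (by positivity)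
                exact Real.rpow_le_rpow hn0.le hnN hω.le
      _ = (N : ℝ) ^ ω * ∑ n ∈ Icc 1 N, 1 / (n : ℝ) := by rw [mul_sum]
      _ ≤ (2 * x ^ ω) * (3 * Real.log x) :=
          mul_le_mul hNω ((harm N).trans hlogN) (by positivity) (by positivity)
      _ = _ := by ring
  · have h1 : (N : ℝ) * ((N : ℝ) ^ (-σ) / σ) = (N : ℝ) ^ (1 - σ) / σ := by
      rw [sub_eq_add_neg, Real.rpow_add hNp, Real.rpow_one]
      ring
    rw [h1, div_le_iff₀ hσ0]
    nlinarith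
  · linarith

end LUPA

open LUPA

theorem t_LUP : Pool.Agent.Q145.HC.S_LUP := by
  refine ⟨9, by norm_num, fun ω hω hω4 => ⟨?_, ?_⟩⟩
  · intro Q _ χ hχ s hs1 hs2
    have hQ : (1 : ℝ) ≤ Q := by exact_mod_cast NeZero.one_le
    have ht := abs_nonneg s.im
    have hx3 : 3 ≤ (Q : ℝ) * (|s.im| + 3) := by nlinarith
    obtain ⟨N, hN1, hN2, hb⟩ := base hx3
    obtain ⟨b1, b2, b3⟩ := hb ω s.re hω hω4 hs1
    have hlq : lq Q s.im = Real.log ((Q : ℝ) * (|s.im| + 3)) := by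
      unfold lq ell
      rw [Real.log_mul (by positivity) (by positivity)]
    rw [hlq]
    have hs0 : 0 < s.re := by linarith
    rw [LFunction_eq hχ hN1 hs0]
    have hA : ‖∑ n ∈ Finset.Icc 1 N, χ (n : ZMod Q) * (n : ℂ) ^ (-s)‖ ≤
        ∑ n ∈ Finset.Icc 1 N, (n : ℝ) ^ (-s.re) := by
      refine norm_sum_le_of_le _ fun n hn => ?_
      rw [Finset.mem_Icc] at hn
      have hn0 : 0 < n := by omega
      rw [norm_mul, Complex.norm_natCast_cpow_of_pos hn0, Complex.neg_re]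
      have := χ.norm_le_one (n : ZMod Q)
      have h0 : (0 : ℝ) ≤ (n : ℝ) ^ (-s.re) := by positivity
      calc ‖χ (n : ZMod Q)‖ * (n : ℝ) ^ (-s.re) ≤ 1 * (n : ℝ) ^ (-s.re) :=
            mul_le_mul_of_nonneg_right this h0
        _ = _ := one_mul _
    have hB : ‖s * TM N (Ech χ N) s‖ ≤ (N : ℝ) * ((N : ℝ) ^ (-s.re) / s.re) := by
      have hs3 : ‖s‖ ≤ |s.im| + 3 := by
        have := Complex.norm_le_abs_re_add_abs_im s
        rw [abs_of_pos hs0] at this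
        linarith
      calc ‖s * TM N (Ech χ N) s‖ = ‖s‖ * ‖TM N (Ech χ N) s‖ := norm_mul _ _
        _ ≤ (|s.im| + 3) * (Q * ((N : ℝ) ^ (-s.re) / s.re)) :=
            mul_le_mul hs3 (TM_norm_le hN1 (Ech_norm_le hχ N) hs0) (norm_nonneg _) (by positivity)
        _ = ((Q : ℝ) * (|s.im| + 3)) * ((N : ℝ) ^ (-s.re) / s.re) := by ring
        _ ≤ _ := mul_le_mul_of_nonneg_right hN2 (by positivity)
    refine (norm_add_le _ _).trans ?_
    linarith
  · intro s hs1 hs2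
    have ht := abs_nonneg s.im
    have hx3 : 3 ≤ |s.im| + 3 := by linarith
    obtain ⟨N, hN1, hN2, hb⟩ := base hx3
    obtain ⟨b1, b2, b3⟩ := hb ω s.re hω hω4 hs1
    have hell : ell s.im = Real.log (|s.im| + 3) := rfl
    rw [hell]
    have hpos : 0 ≤ Real.log (|s.im| + 3) * Real.exp (ω * Real.log (|s.im| + 3)) :=
      mul_nonneg (Real.log_nonneg (by linarith)) (Real.exp_pos _).le
    have hs0 : 0 < s.re := by linarith
    by_cases hs : s = 1
    · have : (s - 1) * riemannZeta s = 0 := by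
        rw [hs, sub_self, zero_mul]
      rw [this, norm_zero, mul_assoc]
      exact mul_nonneg (by positivity) hpos
    have hs1' : s - 1 ≠ 0 := sub_ne_zero.2 hs
    have hA : ‖∑ n ∈ Finset.Icc 1 N, (n : ℂ) ^ (-s)‖ ≤
        ∑ n ∈ Finset.Icc 1 N, (n : ℝ) ^ (-s.re) := by
      refine norm_sum_le_of_le _ fun n hn => ?_
      rw [Finset.mem_Icc] at hn
      have hn0 : 0 < n := by omega
      rw [Complex.norm_natCast_cpow_of_pos hn0, Complex.neg_re]
    have hB : ‖s * TM N Ez s‖ ≤ (N : ℝ) * ((N : ℝ) ^ (-s.re) / s.re) := by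
      have hs3 : ‖s‖ ≤ |s.im| + 3 := by
        have := Complex.norm_le_abs_re_add_abs_im s
        rw [abs_of_pos hs0] at this
        linarith
      calc ‖s * TM N Ez s‖ = ‖s‖ * ‖TM N Ez s‖ := norm_mul _ _
        _ ≤ (|s.im| + 3) * (1 * ((N : ℝ) ^ (-s.re) / s.re)) :=
            mul_le_mul hs3 (TM_norm_le hN1 Ez_norm_le hs0) (norm_nonneg _) (by positivity)
        _ = (|s.im| + 3) * ((N : ℝ) ^ (-s.re) / s.re) := by ring
        _ ≤ _ := mul_le_mul_of_nonneg_right hN2 (by positivity)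
    have hC : ‖(N : ℂ) ^ (1 - s)‖ = (N : ℝ) ^ (1 - s.re) := by
      rw [Complex.norm_natCast_cpow_of_pos hN1]
      simp
    have e1 : (s - 1) * riemannZeta s = (s - 1) * (∑ n ∈ Finset.Icc 1 N, (n : ℂ) ^ (-s)) +
        (N : ℂ) ^ (1 - s) + (s - 1) * (s * TM N Ez s) := by
      rw [zeta_eq hN1 hs0 hs]
      field_simp
    rw [e1]
    have h1 : ‖(s - 1) * (∑ n ∈ Finset.Icc 1 N, (n : ℂ) ^ (-s)) + (N : ℂ) ^ (1 - s) +
        (s - 1) * (s * TM N Ez s)‖ ≤
        ‖s - 1‖ * (6 * (Real.log (|s.im| + 3) * Real.exp (ω * Real.log (|s.im| + 3)))) +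
        2 * (Real.log (|s.im| + 3) * Real.exp (ω * Real.log (|s.im| + 3))) +
        ‖s - 1‖ * (3 * (Real.log (|s.im| + 3) * Real.exp (ω * Real.log (|s.im| + 3)))) := by
      refine (norm_add_le _ _).trans (add_le_add ((norm_add_le _ _).trans (add_le_add ?_ ?_)) ?_)
      · rw [norm_mul]
        exact mul_le_mul_of_nonneg_left (hA.trans b1) (norm_nonneg _)
      · rw [hC]
        exact b3
      · rw [norm_mul]
        exact mul_le_mul_of_nonneg_left (hB.trans b2) (norm_nonneg _)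
    refine h1.trans ?_
    have h2 : 9 * (1 + ‖s - 1‖) * Real.log (|s.im| + 3) *
        Real.exp (ω * Real.log (|s.im| + 3)) =
        9 * (Real.log (|s.im| + 3) * Real.exp (ω * Real.log (|s.im| + 3))) +
        9 * ‖s - 1‖ * (Real.log (|s.im| + 3) * Real.exp (ω * Real.log (|s.im| + 3))) := by ring
    rw [h2]
    nlinarith

end Pool.Agent.Q208.HC
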